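import Pool.Agent.N254.SQ.Locus
import Pool.Agent.N254.SQ.VerSurj

/-!
The Veronese image of a projective variety is closed, over all extensions of the field of complex
numbers: a point at which all forms vanish which vanish on `v(V(S))` is in `v(V(S))`.
-/

set_option autoImplicit false

namespace Pool.Agent.J4.H14.SH

open MvPolynomial
open Pool.Agent.N254.SQ

variable {n N d : ℕ} {m : Fin (N + 1) → Fin (n + 1) → ℕ}

/-- monomials in the coordinates are homogeneous -/
theorem mono_hom {M : ℕ} (b : Fin (n + 1) → Fin (M + 1)) (e : Fin (n + 1) → ℕ) :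
    (∏ j, (X (b j) : MvPolynomial (Fin (M + 1)) ℂ) ^ e j).IsHomogeneous (∑ j, e j) := by
  have h1 : (∏ j, (X (b j) : MvPolynomial (Fin (M + 1)) ℂ) ^ e j).IsHomogeneous (∑ j, 1 * e j) :=
    IsHomogeneous.prod _ _ _ fun j _ => (isHomogeneous_X ℂ (b j)).pow _
  simpa only [one_mul] using h1

/-- the image of a closed set under the Veronese map is closed -/
theorem ver_closed (hm : Mon n N d m) (hd : 1 ≤ d) {S : Set (MvPolynomial (Fin (n + 1)) ℂ)}
    (hS : ∀ p ∈ S, IsForm p) {L : Type} [Field L] [Algebra ℂ L] {y : Fin (N + 1) → L} (hy : y ≠ 0)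
    (h : ∀ G, IsForm G → (∀ (Ω : Type) [Field Ω] [Algebra ℂ Ω] (x : Fin (n + 1) → Ω),
      (∀ p ∈ S, aeval x p = 0) → aeval (ver m x) G = 0) → aeval y G = 0) :
    ∃ (x : Fin (n + 1) → L) (c : L), x ≠ 0 ∧ c ≠ 0 ∧ (∀ p ∈ S, aeval x p = 0) ∧
      y = c • ver m x := by
  choose b hb using fun a j : Fin (n + 1) => hm.surj _ (near_sum hd a j)
  have hbv : ∀ (Ω : Type) [Field Ω] (x : Fin (n + 1) → Ω) (a j : Fin (n + 1)),
      ver m x (b a j) = x a ^ (d - 1) * x j := by
    intro Ω _ x a j
    unfold ver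
    rw [hb, near_prod]
  have hpow : ∀ (Ω : Type) [Field Ω] (x : Ω), x ^ (d - 1) * x = x ^ d := by
    intro Ω _ x
    rw [← pow_succ, Nat.sub_add_cancel hd]
  -- some `y (b a a) ≠ 0`
  obtain ⟨a, ha⟩ : ∃ a, y (b a a) ≠ 0 := by
    by_contra hcon
    push Not at hcon
    apply hy
    funext c
    have h1 := h (X c ^ d - ∏ j, X (b j j) ^ m c j) ⟨d, by
      refine IsHomogeneous.sub ?_ ?_
      · have := (isHomogeneous_X ℂ c).pow d
        simpa only [one_mul] using this
      · have := mono_hom (fun j => b j j) (m c)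
        rwa [hm.deg] at this⟩ (fun Ω _ _ x _ => by
        rw [map_sub, map_pow, map_prod, aeval_X]
        simp only [map_pow, aeval_X, hbv, hpow]
        rw [sub_eq_zero]
        unfold ver
        rw [← Finset.prod_pow]
        refine Finset.prod_congr rfl fun j _ => ?_
        rw [← pow_mul, ← pow_mul, mul_comm])
    rw [map_sub, map_pow, map_prod, aeval_X] at h1
    simp only [map_pow, aeval_X] at h1
    obtain ⟨j, hj⟩ : ∃ j, m c j ≠ 0 := by
      by_contra h2
      push Not at h2
      have h3 := hm.deg c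
      simp only [h2, Finset.sum_const_zero] at h3
      omega
    rw [Finset.prod_eq_zero (Finset.mem_univ j) (by rw [hcon j, zero_pow hj]), sub_zero] at h1
    exact eq_zero_of_pow_eq_zero h1
  -- the preimage
  have hver : ver m (fun j => y (b a j)) = (y (b a a)) ^ (d - 1) • y := by
    funext c
    have h1 := h (∏ j, X (b a j) ^ m c j - X c * X (b a a) ^ (d - 1)) ⟨d, by
      refine IsHomogeneous.sub ?_ ?_
      · have := mono_hom (fun j => b a j) (m c)
        rwa [hm.deg] at this
      · have h1 := (isHomogeneous_X ℂ (b a a)).pow (d - 1)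
        have h2 := (isHomogeneous_X ℂ c).mul h1
        have h3 : 1 + 1 * (d - 1) = d := by omega
        rwa [h3] at h2⟩ (fun Ω _ _ x _ => by
        rw [map_sub, map_mul, map_pow, map_prod, aeval_X, aeval_X]
        simp only [map_pow, aeval_X, hbv, hpow]
        rw [sub_eq_zero]
        simp only [mul_pow, Finset.prod_mul_distrib]
        rw [Finset.prod_pow_eq_pow_sum, hm.deg]
        unfold ver
        rw [mul_comm, ← pow_mul, ← pow_mul, mul_comm d (d - 1)])
    rw [map_sub, map_mul, map_pow, map_prod, aeval_X, aeval_X] at h1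
    simp only [map_pow, aeval_X] at h1
    rw [Pi.smul_apply, smul_eq_mul]
    unfold ver
    rw [sub_eq_zero.1 h1, mul_comm]
  have hc : (y (b a a)) ^ (d - 1) ≠ 0 := pow_ne_zero _ ha
  refine ⟨fun j => y (b a j), ((y (b a a)) ^ (d - 1))⁻¹, ?_, inv_ne_zero hc, ?_, ?_⟩
  · intro h0
    exact ha (congrFun h0 a)
  · intro p hp
    obtain ⟨e, he⟩ := hS p hp
    obtain ⟨G, hG, hGp⟩ := t_versurj n N d m hm e (p ^ d) (by
      have := he.pow d
      rwa [mul_comm] at this)
    have hGp : pull m G = p ^ d := hGp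
    have h1 := h G ⟨e, hG⟩ (fun Ω _ _ x hx => by
      rw [← aeval_pull, hGp, map_pow, hx p hp, zero_pow (by omega)])
    have h2 : aeval (fun j => y (b a j)) (pull m G) = 0 := by
      rw [aeval_pull, hver, aeval_scale hG, h1, mul_zero]
    rw [hGp, map_pow] at h2
    exact eq_zero_of_pow_eq_zero h2
  · rw [hver, smul_smul, inv_mul_cancel₀ hc, one_smul]

end Pool.Agent.J4.H14.SH
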