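import Pool.Agent.N254.SQ.PtdR
import Pool.Agent.N254.SQ.Bend

/-!
Pointed curves in projective varieties outside of a hypersurface: bend and break through the base point,
and the transfer between a projective variety and the smooth hypersurfaces of `Pool/Agent/N254/SQ`.
The theorems `bend_pt`, `curve_pt`, `transfer_pt` are the versions with an exceptional set of the
starting theorems `t_bend`, `ptd_curve`, `t_ptd` (`Pool/Agent/N254/SQ/Bend.lean`, `PtdR.lean`).
-/

set_option autoImplicit false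

namespace Pool.Agent.J4.H14.SH

open MvPolynomial FF
open Pool.Agent.N254.SQ
open Pool.Agent.W603.LV (canDeg hgt Ge)
open Pool.Agent.W603.PV (pht pord pord_le exists_pord pord_scale)
open Pool.Agent.W602.RG (HasValue)
open scoped LinearAlgebra.Projectivization

/-- for all pointed curves `(C, c)` and all points `x` with `G(x) ≠ 0` there are only finitely many
morphisms from `C` to `V(S)` which map `c` to `x` -/
def OnPointed {n : ℕ} (S : Set (MvPolynomial (Fin (n + 1)) ℂ)) (G : MvPolynomial (Fin (n + 1)) ℂ) :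
    Prop :=
  ∀ (E : Type) [Field E] [Algebra ℂ E] [IsFF ℂ E] (c : Place ℂ E) (x : Fin (n + 1) → ℂ), x ≠ 0 →
    eval x G ≠ 0 →
    {φ : ℙ E (Fin (n + 1) → E) | ∃ (f : Fin (n + 1) → E) (hf : f ≠ 0), (∀ p ∈ S, aeval f p = 0) ∧
      HasValue c x f ∧ φ = Projectivization.mk E f hf}.Finite

/-- bend and break: infinitely many pointed maps of bounded degree through `x` give a rational curve
through `x` -/
theorem bend_pt (n : ℕ) (S : Set (MvPolynomial (Fin (n + 1)) ℂ)) (hS : ∀ p ∈ S, IsForm p)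
    (E : Type) [Field E] [Algebra ℂ E] [IsFF ℂ E] (c : Place ℂ E) (x : Fin (n + 1) → ℂ) (B : ℤ)
    (hx : x ≠ 0) (hinf : {φ : ℙ E (Fin (n + 1) → E) | ∃ (f : Fin (n + 1) → E) (hf : f ≠ 0),
        (∀ p ∈ S, aeval f p = 0) ∧ HasValue c x f ∧ pht ℂ f ≤ B ∧
        φ = Projectivization.mk E f hf}.Infinite) :
      ∃ y : Fin (n + 1) → RatFunc ℂ, y ≠ 0 ∧ (∀ p ∈ S, aeval y p = 0) ∧
        (¬ ∃ (c : RatFunc ℂ) (z : Fin (n + 1) → ℂ), y = fun j => c * algebraMap ℂ (RatFunc ℂ) (z j)) ∧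
        ∀ G, IsForm G → aeval y G = 0 → eval x G = 0 := by
  classical
  obtain ⟨j0, hj0⟩ := Function.ne_iff.1 hx
  have hj0 : x j0 ≠ 0 := hj0
  set M : Set (Fin (n + 1) → E) := {f | f j0 = 1 ∧ (∀ p ∈ S, aeval f p = 0) ∧ HasValue c x f ∧
    ∀ j, hgt ℂ (f j) ≤ max B 0} with hM
  have hMinf : M.Infinite := by
    intro hMfin
    obtain ⟨φ0, -⟩ := hinf.nonempty
    let g : (Fin (n + 1) → E) → ℙ E (Fin (n + 1) → E) := fun f =>
      if h : f ≠ 0 then Projectivization.mk E f h else φ0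
    refine hinf ((hMfin.image g).subset ?_)
    rintro φ ⟨f, hf, hmap, hval, hht, rfl⟩
    have hfne : ∃ j, f j ≠ 0 := Function.ne_iff.1 hf
    have hfj0 := Pool.Agent.W273.RG.FNW.hv_ne hfne hval hj0
    have hc0 : (f j0)⁻¹ ≠ 0 := inv_ne_zero hfj0
    have hf' : (fun j => (f j0)⁻¹ * f j) ≠ 0 := by
      intro h0
      have := congrFun h0 j0
      simp only [Pi.zero_apply] at this
      exact (mul_ne_zero hc0 hfj0) this
    refine ⟨fun j => (f j0)⁻¹ * f j, ⟨inv_mul_cancel₀ hfj0, ?_,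
      Pool.Agent.W273.RG.FNW.hv_scale hfne hval hc0, ?_⟩, ?_⟩
    · intro p hp
      exact bend_scale (hS p hp) f _ (hmap p hp)
    · intro j
      by_cases h0 : f j = 0
      · have h7 : hgt ℂ ((f j0)⁻¹ * f j) = 0 := by
          rw [h0, mul_zero]
          exact Pool.Agent.W603.PV.hgt_algebraic (k := ℂ) (K := E) (f := 0) isAlgebraic_zero
        simp only [h7]
        exact le_max_right _ _
      · have h6 := Pool.Agent.W603.CX.hgt_le_pht (k := ℂ) f (j := j) (l := j0) h0 hfj0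
        have e : (f j0)⁻¹ * f j = f j / f j0 := by rw [div_eq_mul_inv, mul_comm]
        simp only [e]
        exact (h6.trans hht).trans (le_max_left _ _)
    · change (if h : (fun j => (f j0)⁻¹ * f j) ≠ 0 then
        Projectivization.mk E (fun j => (f j0)⁻¹ * f j) h else φ0) = _
      rw [dif_pos hf', Projectivization.mk_eq_mk_iff']
      exact ⟨(f j0)⁻¹, by funext j; rfl⟩
  have hvalues : ∀ f ∈ M, ∀ j, f j = algebraMap ℂ E (x j / x j0) ∨
      0 < c.ord (f j - algebraMap ℂ E (x j / x j0)) := by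
    rintro f ⟨hf0, hmap, hval, hht⟩ j
    have hp := Pool.Agent.W273.RG.FNW.pord_zero hval hj0 hf0
    have hxj0 : algebraMap ℂ E (x j0) ≠ 0 := (map_ne_zero _).2 hj0
    have e : algebraMap ℂ E (x j0) * f j - algebraMap ℂ E (x j) * f j0 =
        algebraMap ℂ E (x j0) * (f j - algebraMap ℂ E (x j / x j0)) := by
      rw [hf0, map_div₀]
      field_simp
    rcases hval j0 j with h3 | h3
    · left
      rw [e] at h3
      exact sub_eq_zero.1 ((mul_eq_zero.1 h3).resolve_left hxj0)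
    · by_cases h4 : f j - algebraMap ℂ E (x j / x j0) = 0
      · left; exact sub_eq_zero.1 h4
      · right
        rw [e, c.ord_mul hxj0 h4, c.ord_const hj0, zero_add, hp] at h3
        exact h3
  let z : ℕ ↪ M := hMinf.natEmbedding M
  obtain ⟨g, ⟨j1, hj1⟩, hg1, hg2⟩ := Pool.Agent.TH152.BB.bb_val Pool.Agent.TH152.BB.bb_all c
    (fun m => (z m : Fin (n + 1) → E)) (fun j => x j / x j0) (max B 0)
    (fun a b hab => z.injective (Subtype.ext hab)) (fun m j => hvalues _ (z m).2 j)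
    (fun m j => (z m).2.2.2.2 j)
  have hg0 : g j0 = 1 := by
    have h1 := hg1 (X j0 - 1) (fun m => by
      rw [map_sub, aeval_X, map_one]; exact sub_eq_zero.2 (z m).2.1)
    rw [map_sub, aeval_X, map_one] at h1
    exact sub_eq_zero.1 h1
  refine ⟨g, ?_, fun p hp => hg1 p fun m => (z m).2.2.1 p hp, ?_, ?_⟩
  · intro h0
    rw [h0] at hg0
    exact zero_ne_one hg0
  · rintro ⟨r, w, hrw⟩
    apply hj1
    have h0 : r * algebraMap ℂ (RatFunc ℂ) (w j0) = 1 := by
      rw [← hg0, hrw]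
    have hw : algebraMap ℂ (RatFunc ℂ) (w j0) ≠ 0 := right_ne_zero_of_mul_eq_one h0
    have hr : r = algebraMap ℂ (RatFunc ℂ) (w j0)⁻¹ := by
      rw [map_inv₀]
      exact eq_inv_of_mul_eq_one_left h0
    refine ⟨(w j0)⁻¹ * w j1, ?_⟩
    rw [map_mul, ← hr, hrw]
  · intro G hG hGg
    have h1 := hg2 G hGg
    have h2 : (fun j => x j / x j0) = fun j => (x j0)⁻¹ * x j := by
      funext j
      rw [div_eq_mul_inv, mul_comm]
    rw [h2] at h1
    have h3 : aeval (fun j => (x j0)⁻¹ * x j) G = 0 := by rw [aeval_eq_eval]; exact h1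
    have h4 := bend_scale hG (fun j => (x j0)⁻¹ * x j) (x j0) h3
    have h5 : (fun j => x j0 * ((x j0)⁻¹ * x j)) = x := by
      funext j
      rw [← mul_assoc, mul_inv_cancel₀ hj0, one_mul]
    simp only [h5] at h4
    rwa [aeval_eq_eval] at h4

/-- a nonconstant rational curve in `V(S)` not contained in `G = 0` gives infinitely many pointed maps
through a point with `G ≠ 0` -/
theorem curve_pt {n : ℕ} {S : Set (MvPolynomial (Fin (n + 1)) ℂ)} (hS : ∀ p ∈ S, IsForm p)
    {G : MvPolynomial (Fin (n + 1)) ℂ} (hG : IsForm G)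
    {x : Fin (n + 1) → RatFunc ℂ} (hx : x ≠ 0) (hxS : ∀ p ∈ S, aeval x p = 0)
    (hn : ¬ ∃ (c : RatFunc ℂ) (z : Fin (n + 1) → ℂ),
      x = fun j => c * algebraMap ℂ (RatFunc ℂ) (z j)) (hxG : aeval x G ≠ 0) : ¬ OnPointed S G := by
  intro hfin
  obtain ⟨b, hb⟩ := IsLocalization.exist_integer_multiples_of_finite
    (nonZeroDivisors (Polynomial ℂ)) x
  choose P hP using hb
  have hb0 : algebraMap (Polynomial ℂ) (RatFunc ℂ) (b : Polynomial ℂ) ≠ 0 := by
    rw [Ne, map_eq_zero_iff _ (IsFractionRing.injective (Polynomial ℂ) (RatFunc ℂ))]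
    exact nonZeroDivisors.ne_zero b.2
  set β := algebraMap (Polynomial ℂ) (RatFunc ℂ) (b : Polynomial ℂ) with hβ
  have hP2 : ∀ j, algebraMap (Polynomial ℂ) (RatFunc ℂ) (P j) = β * x j := by
    intro j
    rw [hP j, hβ]
    exact Algebra.smul_def _ _
  obtain ⟨j0, hj0⟩ := ptd_ne hx
  have hPj0 : P j0 ≠ 0 := by
    intro h0
    have h1 := hP2 j0
    rw [h0, map_zero] at h1
    exact mul_ne_zero hb0 hj0 h1.symm
  have hcomp : ∀ p : MvPolynomial (Fin (n + 1)) ℂ, algebraMap (Polynomial ℂ) (RatFunc ℂ) (aeval P p) =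
      aeval (β • x) p := by
    intro p
    have h1 := aeval_algebraMap_apply (R := ℂ) (RatFunc ℂ) P p
    rw [← h1]
    have h3 : (algebraMap (Polynomial ℂ) (RatFunc ℂ) ∘ P) = β • x := by
      funext i
      exact hP2 i
    rw [h3]
  have hPG : aeval P G ≠ 0 := by
    intro h0
    obtain ⟨e, he⟩ := hG
    have h1 := hcomp G
    rw [h0, map_zero, aeval_scale he] at h1
    exact mul_ne_zero (pow_ne_zero _ hb0) hxG h1.symm
  obtain ⟨t0, ht0, htG⟩ : ∃ t0, (P j0).eval t0 ≠ 0 ∧ (aeval P G).eval t0 ≠ 0 := by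
    by_contra hcon
    push Not at hcon
    apply mul_ne_zero hPj0 hPG
    refine Polynomial.funext fun t => ?_
    rw [Polynomial.eval_mul, Polynomial.eval_zero]
    by_cases h : (P j0).eval t = 0
    · rw [h, zero_mul]
    · rw [hcon t h, mul_zero]
  -- the forms vanish
  have hPS : ∀ p ∈ S, aeval P p = 0 := by
    intro p hp
    obtain ⟨e, he⟩ := hS p hp
    apply IsFractionRing.injective (Polynomial ℂ) (RatFunc ℂ)
    rw [map_zero, hcomp, aeval_scale he, hxS p hp, mul_zero]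
  -- a nonconstant coordinate
  obtain ⟨i0, hi0⟩ : ∃ i, P i - Polynomial.C ((P i).eval t0 / (P j0).eval t0) * P j0 ≠ 0 := by
    by_contra hcon
    push Not at hcon
    apply hn
    refine ⟨β⁻¹ * algebraMap (Polynomial ℂ) (RatFunc ℂ) (P j0),
      fun i => (P i).eval t0 / (P j0).eval t0, funext fun i => ?_⟩
    have h1 := congrArg (algebraMap (Polynomial ℂ) (RatFunc ℂ)) (sub_eq_zero.1 (hcon i))
    rw [map_mul, hP2 i] at h1
    have h2 : algebraMap (Polynomial ℂ) (RatFunc ℂ)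
        (Polynomial.C ((P i).eval t0 / (P j0).eval t0)) =
        algebraMap ℂ (RatFunc ℂ) ((P i).eval t0 / (P j0).eval t0) := by
      rw [IsScalarTower.algebraMap_apply ℂ (Polynomial ℂ) (RatFunc ℂ)]
      rfl
    rw [h2] at h1
    have h3 : x i = β⁻¹ * (β * x i) := by
      rw [← mul_assoc, inv_mul_cancel₀ hb0, one_mul]
    rw [h3, h1]
    ring
  set r := (P i0).eval t0 / (P j0).eval t0 with hr
  set F := P i0 - Polynomial.C r * P j0 with hF
  have hF0 : F.eval t0 = 0 := by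
    rw [hF, Polynomial.eval_sub, Polynomial.eval_mul, Polynomial.eval_C, hr,
      div_mul_cancel₀ _ ht0, sub_self]
  obtain ⟨Q, hQ, hQ2⟩ := Polynomial.exists_eq_pow_rootMultiplicity_mul_and_not_dvd F hi0 t0
  have hv : 0 < Polynomial.rootMultiplicity t0 F := (Polynomial.rootMultiplicity_pos hi0).2 hF0
  set v := Polynomial.rootMultiplicity t0 F with hvd
  have hQt : Q.eval t0 ≠ 0 := fun h0 => hQ2 (Polynomial.dvd_iff_isRoot.2 h0)
  -- the place
  obtain ⟨c, hc⟩ := Pool.Agent.W856.RG.Orb.exists_zero (k := ℂ) (L := RatFunc ℂ)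
    (f := RatFunc.X) RatFunc.transcendental_X
  have hX0 : (RatFunc.X : RatFunc ℂ) ≠ 0 := RatFunc.X_ne_zero
  let u : ℕ → RatFunc ℂ := fun q => algebraMap ℂ (RatFunc ℂ) t0 + RatFunc.X ^ (q + 1)
  have hu : ∀ q, u q - algebraMap ℂ (RatFunc ℂ) t0 = RatFunc.X ^ (q + 1) := fun q =>
    add_sub_cancel_left _ _
  have huG : ∀ q, Ge c 1 (u q - algebraMap ℂ (RatFunc ℂ) t0) := by
    intro q
    rw [hu]
    right
    rw [c.ord_pow]
    push_cast
    nlinarith
  let f : ℕ → Fin (n + 1) → RatFunc ℂ := fun q j => Polynomial.aeval (u q) (P j)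
  let z : Fin (n + 1) → ℂ := fun j => (P j).eval t0
  have hz0 : z ≠ 0 := fun h0 => ht0 (congrFun h0 j0)
  have hzG : eval z G ≠ 0 := by
    have h1 : (aeval P G).eval t0 = eval z G := by
      have h2 : ((Polynomial.aeval t0).comp (aeval P)) G = aeval z G := by
        rw [comp_aeval]
        rfl
      rw [AlgHom.comp_apply, aeval_eq_eval, Polynomial.coe_aeval_eq_eval] at h2
      exact h2
    rw [← h1]
    exact htG
  have hf : ∀ q, f q ≠ 0 ∧ HasValue c z (f q) := fun q =>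
    ptd_of_near hz0 fun j => ptd_polyGe (huG q) (P j)
  have hfS : ∀ q, ∀ p ∈ S, aeval (f q) p = 0 := by
    intro q p hp
    have h1 : ((Polynomial.aeval (u q)).comp (aeval P)) p = aeval (f q) p := by
      rw [comp_aeval]
    rw [← h1, AlgHom.comp_apply, hPS p hp, map_zero]
  have hinj : Function.Injective fun q => Projectivization.mk (RatFunc ℂ) (f q) (hf q).1 := by
    intro q q' h
    have h : Projectivization.mk (RatFunc ℂ) (f q) (hf q).1 =
      Projectivization.mk (RatFunc ℂ) (f q') (hf q').1 := h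
    rw [Projectivization.mk_eq_mk_iff'] at h
    obtain ⟨a, ha⟩ := h
    have hU : ∀ (q : ℕ) (G : Polynomial ℂ), G.eval t0 ≠ 0 → Polynomial.aeval (u q) G ≠ 0 ∧
        c.ord (Polynomial.aeval (u q) G) = 0 := fun q G hG => ptd_unit hG (ptd_polyGe (huG q) G)
    have h1 : a * f q' j0 = f q j0 := congrFun ha j0
    have h2 : a * f q' i0 = f q i0 := congrFun ha i0
    have hFq : ∀ q, Polynomial.aeval (u q) F = f q i0 - algebraMap ℂ (RatFunc ℂ) r * f q j0 := by
      intro q
      rw [hF, map_sub, map_mul, Polynomial.aeval_C]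
    have hFq2 : ∀ q, Polynomial.aeval (u q) F ≠ 0 ∧
        c.ord (Polynomial.aeval (u q) F) = v * ((q + 1) * c.ord (RatFunc.X : RatFunc ℂ)) := by
      intro q
      have h3 : Polynomial.aeval (u q) F = (RatFunc.X ^ (q + 1)) ^ v * Polynomial.aeval (u q) Q := by
        conv_lhs => rw [hQ]
        rw [map_mul, map_pow, map_sub, Polynomial.aeval_X, Polynomial.aeval_C, hu]
      obtain ⟨h4, h5⟩ := hU q Q hQt
      have h6 : (((RatFunc.X : RatFunc ℂ) ^ (q + 1)) ^ v) ≠ 0 := pow_ne_zero _ (pow_ne_zero _ hX0)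
      rw [h3]
      refine ⟨mul_ne_zero h6 h4, ?_⟩
      rw [c.ord_mul h6 h4, h5, c.ord_pow, c.ord_pow]
      push_cast
      ring
    have ha0 : a ≠ 0 := by
      intro h0
      rw [h0, zero_mul] at h1
      exact (hU q (P j0) ht0).1 h1.symm
    have hao : c.ord a = 0 := by
      have h3 := c.ord_mul ha0 (hU q' (P j0) ht0).1
      have h4 : a * Polynomial.aeval (u q') (P j0) = Polynomial.aeval (u q) (P j0) := h1
      rw [h4, (hU q (P j0) ht0).2, (hU q' (P j0) ht0).2] at h3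
      omega
    have h3 : a * Polynomial.aeval (u q') F = Polynomial.aeval (u q) F := by
      rw [hFq, hFq, ← h1, ← h2]
      ring
    have h4 := c.ord_mul ha0 (hFq2 q').1
    rw [h3, hao, zero_add, (hFq2 q).2, (hFq2 q').2] at h4
    have h5 : ((v : ℤ)) ≠ 0 := by exact_mod_cast hv.ne'
    have h6 := mul_left_cancel₀ h5 h4
    have h7 := mul_right_cancel₀ hc.ne' h6
    omega
  have hmem : ∀ q, Projectivization.mk (RatFunc ℂ) (f q) (hf q).1 ∈
      {φ : ℙ (RatFunc ℂ) (Fin (n + 1) → RatFunc ℂ) | ∃ (f : Fin (n + 1) → RatFunc ℂ) (hf : f ≠ 0),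
        (∀ p ∈ S, aeval f p = 0) ∧ HasValue c z f ∧
        φ = Projectivization.mk (RatFunc ℂ) f hf} := fun q =>
    ⟨f q, (hf q).1, hfS q, (hf q).2, rfl⟩
  exact (Set.infinite_of_injective_forall_mem hinj hmem) (hfin (RatFunc ℂ) c z hz0 hzG)

/-- a form which vanishes along `f` vanishes at the value of `f` at a place -/
theorem value_zero {n : ℕ} {E : Type} [Field E] [Algebra ℂ E] [IsFF ℂ E] {c : Place ℂ E}
    {x : Fin (n + 1) → ℂ} (hx : x ≠ 0) {f : Fin (n + 1) → E} (hf : f ≠ 0) (h : HasValue c x f)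
    {G : MvPolynomial (Fin (n + 1)) ℂ} (hG : IsForm G) (h0 : aeval f G = 0) : eval x G = 0 := by
  obtain ⟨a, ha, hg⟩ := ptd_near hx hf h
  have h1 : ∀ j, Ge c 0 ((a • f) j) := by
    intro j
    have := ((hg j).mono (by norm_num : (0 : ℤ) ≤ 1)).add (Ge.const (P := c) (x j))
    rwa [sub_add_cancel] at this
  have h2 := Pool.Agent.W603.LV.red_mvaeval c h1 hg G
  obtain ⟨e, he⟩ := hG
  rw [aeval_scale he, h0, mul_zero, zero_sub] at h2
  have h3 : Ge c 1 (algebraMap ℂ E (-(eval x G))) := by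
    rw [map_neg]
    exact h2
  have h4 := Pool.Agent.W603.LV.const_zero c h3
  exact neg_eq_zero.1 h4

section

variable {n N d : ℕ} {m : Fin (N + 1) → Fin (n + 1) → ℕ} {S : Set (MvPolynomial (Fin (n + 1)) ℂ)}

/-- the Veronese map on the maps from a curve -/
theorem exists_map (hm : Mon n N d m) (hd : 1 ≤ d) (E : Type) [Field E] [Algebra ℂ E] :
    ∃ Φ : ℙ E (Fin (n + 1) → E) → ℙ E (Fin (N + 1) → E), Function.Injective Φ ∧
      ∀ (f : Fin (n + 1) → E) (hf : f ≠ 0), Φ (Projectivization.mk E f hf) =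
        Projectivization.mk E (ver m f) (ver_ne_zero hm hd hf) := by
  refine ⟨fun φ => Projectivization.mk E (ver m φ.rep) (ver_ne_zero hm hd φ.rep_nonzero),
    ?_, ?_⟩
  · intro φ ψ h
    have h : Projectivization.mk E (ver m φ.rep) (ver_ne_zero hm hd φ.rep_nonzero) =
      Projectivization.mk E (ver m ψ.rep) (ver_ne_zero hm hd ψ.rep_nonzero) := h
    rw [Projectivization.mk_eq_mk_iff'] at h
    obtain ⟨a, ha⟩ := h
    obtain ⟨c', hc'⟩ := ver_prop hm hd φ.rep_nonzero ha.symm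
    rw [← φ.mk_rep, ← ψ.mk_rep, Projectivization.mk_eq_mk_iff']
    exact ⟨c', hc'.symm⟩
  · intro f hf
    change Projectivization.mk E (ver m (Projectivization.mk E f hf).rep) _ = _
    obtain ⟨a, ha⟩ := Projectivization.exists_smul_eq_mk_rep E f hf
    rw [Projectivization.mk_eq_mk_iff']
    refine ⟨(a : E) ^ d, ?_⟩
    rw [← ha, Units.smul_def, ver_smul hm]

/-- the pointed maps to `v(V)` from those to `V` -/
theorem image_finite (hm : Mon n N d m) (hd : 1 ≤ d) {G : MvPolynomial (Fin (N + 1)) ℂ}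
    (hG : IsForm G) (h : OnPointed S (pull m G)) (E : Type) [Field E] [Algebra ℂ E] [IsFF ℂ E]
    (c : Place ℂ E) (y0 : Fin (N + 1) → ℂ) (hy0 : y0 ≠ 0) (hyG : eval y0 G ≠ 0) :
    {φ : ℙ E (Fin (N + 1) → E) | ∃ (x : Fin (n + 1) → E) (hx : x ≠ 0),
        (∀ p ∈ S, aeval x p = 0) ∧ HasValue c y0 (ver m x) ∧
        φ = Projectivization.mk E (ver m x) (ver_ne_zero hm hd hx)}.Finite := by
  obtain ⟨Φ, hΦi, hΦ⟩ := exists_map hm hd E
  by_cases hne : ∃ x : Fin (n + 1) → E, x ≠ 0 ∧ HasValue c y0 (ver m x)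
  · obtain ⟨x0, hx0, hv0⟩ := hne
    obtain ⟨z, hz, hzv⟩ := ptd_exists c hx0
    have h3 := ptd_ver hm hd hz hx0 hzv
    obtain ⟨a, ha1⟩ := ptd_prop hy0 (ptd_uniq (ver_ne_zero hm hd hx0) hv0 h3)
    have ha0 : a ≠ 0 := by
      intro h0
      rw [h0, zero_smul] at ha1
      exact ver_ne_zero hm hd hz ha1
    have hzG : eval z (pull m G) ≠ 0 := by
      rw [eval_pull, ha1]
      obtain ⟨e, he⟩ := hG
      rw [eval_scale he a y0]
      exact mul_ne_zero (pow_ne_zero _ ha0) hyG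
    refine ((h E c z hz hzG).image Φ).subset ?_
    rintro φ ⟨x, hx, hxS, hv, rfl⟩
    obtain ⟨z', hz', hzv'⟩ := ptd_exists c hx
    have h4 := ptd_ver hm hd hz' hx hzv'
    obtain ⟨a', ha'⟩ := ptd_prop hy0 (ptd_uniq (ver_ne_zero hm hd hx) hv h4)
    obtain ⟨s, hs⟩ := ver_prop hm hd (w := z') (x := z) (c := a' * a⁻¹) hz' (by
      rw [ha', ha1, smul_smul, mul_assoc, inv_mul_cancel₀ ha0, mul_one])
    have hs0 : s ≠ 0 := by
      intro h0
      rw [h0, zero_smul] at hs
      exact hz' hs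
    have h5 := ptd_xscale hzv' s⁻¹
    rw [hs, smul_smul, inv_mul_cancel₀ hs0, one_smul] at h5
    exact ⟨Projectivization.mk E x hx, ⟨x, hx, hxS, h5, rfl⟩, hΦ x hx⟩
  · refine Set.Finite.subset Set.finite_empty ?_
    rintro φ ⟨x, hx, -, hv, -⟩
    exact hne ⟨x, hx, hv⟩

/-- the pointed maps to `V` from those to `v(V)` -/
theorem pt_pull (hm : Mon n N d m) (hd : 1 ≤ d) {S' : Set (MvPolynomial (Fin (N + 1)) ℂ)}
    (h : ∀ (Ω : Type) [Field Ω] [Algebra ℂ Ω] (x : Fin (n + 1) → Ω),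
      (∀ p ∈ S, aeval x p = 0) → ∀ p ∈ S', aeval (ver m x) p = 0)
    {G : MvPolynomial (Fin (N + 1)) ℂ} (hG : OnPointed S' G) : OnPointed S (pull m G) := by
  intro E _ _ _ c x hx hxG
  obtain ⟨Φ, hΦi, hΦ⟩ := exists_map hm hd E
  have hT := hG E c (ver m x) (ver_ne_zero hm hd hx) (by rw [← eval_pull]; exact hxG)
  refine (hT.preimage hΦi.injOn).subset ?_
  rintro φ ⟨f, hf, hfS, hv, rfl⟩
  exact ⟨ver m f, ver_ne_zero hm hd hf, h E f hfS, ptd_ver hm hd hx hf hv, hΦ f hf⟩

/-- the pointed maps to a closed subset of `v(V)` -/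
theorem pt_push (hm : Mon n N d m) (hd : 1 ≤ d) {S' : Set (MvPolynomial (Fin (N + 1)) ℂ)}
    (h : ∀ (Ω : Type) [Field Ω] [Algebra ℂ Ω] (y : Fin (N + 1) → Ω), y ≠ 0 →
      (∀ p ∈ S', aeval y p = 0) → ∃ (x : Fin (n + 1) → Ω) (c : Ω), x ≠ 0 ∧ c ≠ 0 ∧
        (∀ p ∈ S, aeval x p = 0) ∧ y = c • ver m x)
    {G : MvPolynomial (Fin (N + 1)) ℂ} (hG : IsForm G) (hp : OnPointed S (pull m G)) :
    OnPointed S' G := by
  intro E _ _ _ c y0 hy0 hyG
  refine (image_finite hm hd hG hp E c y0 hy0 hyG).subset ?_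
  rintro φ ⟨f, hf, hfS, hv, rfl⟩
  obtain ⟨x, c', hx, hc', hxS, hfx⟩ := h E f hf hfS
  refine ⟨x, hx, hxS, ?_, ?_⟩
  · have h4 := ptd_scale hf hv (inv_ne_zero hc')
    rwa [hfx, smul_smul, inv_mul_cancel₀ hc', one_smul] at h4
  · rw [Projectivization.mk_eq_mk_iff']
    exact ⟨c', hfx.symm⟩

end

/-- the transfer of the finiteness of pointed maps outside of closed sets -/
theorem transfer_pt (n N d : ℕ) (m : Fin (N + 1) → Fin (n + 1) → ℕ)
    (S : Set (MvPolynomial (Fin (n + 1)) ℂ)) (A : MvPolynomial (Fin (N + 1)) ℂ)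
    (hg : Good n N d m S A) (ha : GoodAlg n N m S A) (G : MvPolynomial (Fin (N + 1)) ℂ)
    (hG : IsForm G) : OnPointed {A} G ↔ OnPointed S (pull m G) := by
  have hm := hg.mon
  have hd := hg.deg
  constructor
  · intro h
    refine pt_pull hm hd (fun Ω _ _ x hx p hp => ?_) h
    rw [Set.mem_singleton_iff] at hp
    rw [hp]
    exact hg.sub Ω x hx
  · intro h E _ _ _ c y0 hy0 hyG
    -- the maps to the Veronese image
    have hT1 := image_finite hm hd hG h E c y0 hy0 hyG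
    by_contra hinf
    have hinf2 : {φ : ℙ E (Fin (N + 1) → E) | ∃ (f : Fin (N + 1) → E) (hf : f ≠ 0),
        (∀ p ∈ ({A} : Set (MvPolynomial (Fin (N + 1)) ℂ)), aeval f p = 0) ∧ HasValue c y0 f ∧
        pht ℂ f ≤ max (canDeg ℂ E) 0 ∧ φ = Projectivization.mk E f hf}.Infinite := by
      intro hfin
      apply hinf
      refine (hT1.union hfin).subset ?_
      rintro φ ⟨f, hf, hfA, hv, rfl⟩
      rcases ha E f hf (hfA A rfl) with h3 | ⟨x, c', hx, hc', hxS, hfx⟩
      · exact Or.inr ⟨f, hf, hfA, hv, h3, rfl⟩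
      · left
        refine ⟨x, hx, hxS, ?_, ?_⟩
        · have h4 := ptd_scale hf hv (inv_ne_zero hc')
          rwa [hfx, smul_smul, inv_mul_cancel₀ hc', one_smul] at h4
        · rw [Projectivization.mk_eq_mk_iff']
          exact ⟨c', hfx.symm⟩
    obtain ⟨y, hy, hyA, hyn, hyG2⟩ := bend_pt N {A} (by
      intro p hp
      rw [Set.mem_singleton_iff] at hp
      rw [hp]
      exact hg.homA) E c y0 _ hy0 hinf2
    rcases ha (RatFunc ℂ) y hy (hyA A rfl) with h3 | ⟨x, c', hx, hc', hxS, hyx⟩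
    · rw [Pool.Agent.Y216.canDeg_ratFunc] at h3
      exact hyn (ptd_const hy (h3.trans (by norm_num)))
    · obtain ⟨e, he⟩ := hG
      refine curve_pt hg.homS ⟨_, pull_hom hm he⟩ hx hxS ?_ ?_ h
      · rintro ⟨a, z, hxz⟩
        apply hyn
        refine ⟨c' * a ^ d, ver m z, ?_⟩
        have e1 : x = a • (fun j => algebraMap ℂ (RatFunc ℂ) (z j)) := hxz
        rw [hyx, e1, ver_smul hm]
        funext b
        simp only [Pi.smul_apply, smul_eq_mul]
        unfold ver
        rw [map_prod]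
        simp only [map_pow]
        ring
      · intro h0
        apply hyG
        apply hyG2 G ⟨e, he⟩
        rw [hyx, aeval_scale he, ← aeval_pull, h0, mul_zero]

end Pool.Agent.J4.H14.SH
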